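import Pool.Agent.U922.RC.Fin

/-!
# Dynamical Mordell-Lang for curves and integral points: only real critical cycles at infinity matter

Let `f = (f_0, …, f_N)` be a polynomial self-map of `𝔸^{N+1}` of degree `d ≥ 2` with rational coefficients whose leading forms
`F = (F_0, …, F_N)` have no common zero in `ℂ^{N+1}` but `0`, let `V` be a closed subset of `𝔸^{N+1}` over `ℂ` of dimension at
most one, and let `a` be a rational point whose orbit has bounded denominators (for instance an integral point, if the `f_i`
have integral coefficients).

**Theorem.** (1) If no *real* point at infinity of `V` is a periodic point of `F` whose cycle contains a critical point of `F`,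
then `{n : f^n(a) ∈ V}` is a finite union of arithmetic progressions.

(2) In particular this holds for all `V` of dimension at most one if the determinant of the derivatives of `F` has no real zero
but `0`.

(3) For example, for all integers `c ≥ 1`, all integral polynomials `g_i` of degree at most `2`, all `V` of dimension at most
one and all integral points if `f_i = x_i³ + c x_i (x_0² + … + x_N²) + g_i`.

The starting hand-in `MP_b15c9e_ag.CurvesOffCriticalCycles` has the same conclusion for algebraic coefficients and points under
the condition that there is no critical cycle at all (real or not) through a point at infinity of `V`. In (3) with `N ≥ 2` the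
point `(1 : i : 0 : … : 0)` belongs to a critical cycle of length two.

The proof: for integral points the only place at which the orbit is unbounded is the archimedean one. The points at infinity
`[y]` that occur in the proof of the starting hand-in are limits of rational directions with respect to an absolute value `W` of
the algebraic closure of `ℚ` that extends the archimedean one; so there is a real vector `r` with `W(P(y)) = |P(r)|` for all
rational polynomials `P` (`y` normalised). Hence `r` is at infinity of `V`, periodic and critical if `[y]` is.
-/

set_option autoImplicit false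

open MvPolynomial

namespace Pool.Agent.Results.MP_295d38_ag.IntegralPointsRealCycles

open Pool.Agent.U922.RC

theorem result :
    -- (1)
    (∀ (N d : ℕ) (f : Fin (N + 1) → MvPolynomial (Fin (N + 1)) ℚ), 2 ≤ d → Regular d f →
      ∀ V : Set (MvPolynomial (Fin (N + 1)) ℂ), DimLeOne V → OffRealCriticalCycles d f V →
        ∀ a : Fin (N + 1) → ℚ, BoundedDenominators f a → FiniteUnionAP (returnSet f V a)) ∧
    -- (2)
    (∀ (N d : ℕ) (f : Fin (N + 1) → MvPolynomial (Fin (N + 1)) ℚ), 2 ≤ d → Regular d f →
      (∀ r : Fin (N + 1) → ℝ, r ≠ 0 → jacDet d f r ≠ 0) →
        ∀ V : Set (MvPolynomial (Fin (N + 1)) ℂ), DimLeOne V →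
          ∀ a : Fin (N + 1) → ℚ, BoundedDenominators f a → FiniteUnionAP (returnSet f V a)) ∧
    -- (3)
    (∀ (N c : ℕ), 1 ≤ c → ∀ g : Fin (N + 1) → MvPolynomial (Fin (N + 1)) ℤ, (∀ i, (g i).totalDegree ≤ 2) →
      ∀ V : Set (MvPolynomial (Fin (N + 1)) ℂ), DimLeOne V → ∀ a : Fin (N + 1) → ℤ,
        FiniteUnionAP (returnSet
          (fun i => map (Int.castRingHom ℚ) (X i ^ 3 + C (c : ℤ) * X i * ∑ j, X j ^ 2 + g i)) V
          fun i => (a i : ℚ))) :=
  ⟨fun _ _ f hd hf V hV hper a ha => main hd f hf V hV hper a ha,
    fun _ _ f hd hf hjac V hV a ha => main_all hd f hf hjac V hV a ha,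
    fun _ c hc g hg V hV a => family c hc g hg V hV a⟩

end Pool.Agent.Results.MP_295d38_ag.IntegralPointsRealCycles
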