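import Pool.Agent.U100.KC.Emb
import Pool.Agent.U100.KC.Arc
import Pool.Agent.U100.KC.Null
import Pool.Agent.U100.ZP.Parts
import Pool.Agent.U100.ZP.Cube

/-!
# Dynamical Mordell-Lang for compositions of étale maps of affine varieties and random ramified maps

Let `x_t`, `t = 0, 1, 2, …`, be integral vectors: (1) a random orbit of a thin group, for almost all
random words; (2) a metric sequence; (3) any sequence which is equidistributed modulo all `q` prime to
some `M` along finite sets of times. Binary forms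

  `H_j(X, Y) = ∑ c_{j,i} v_{j,i} X^i Y^(e_j - i)`,  `j < k`,

of arbitrary degrees `e_j ≥ 2` have different coordinates of `x_t` as their coefficients `v_{j,i}`; the
`c_{j,i}` are arbitrary integers different from zero.

**Maps.** Let `R ⊂ ℂ` be a ring, `X = V(I)` a closed subscheme of the affine space `𝔸^N` over `R`. We
consider all polynomial maps `F : 𝔸^N → 𝔸^N` over `R` with `F(X) ⊂ X` whose Jacobian determinant divides
on `X` a product of values `H_j(a, b)`, where `a, b ∈ R[X_1, …, X_N]` are polynomials which generate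
the unit ideal on `X`, and all compositions of such maps (`Adm`). Examples: all automorphisms of `𝔸^N`
over `R`, all maps which are étale on `X` (the empty product); the maps
`(x_i) ↦ (f_{τ(i)}(x_{σ(i)}))`, `σ` a permutation, where `f_j` is a polynomial of degree
`d_j = e_j + 1 ≥ 3` whose coefficients, without the constant one, are different coordinates of `x_t`
(`c_{j,i} = i + 1`, `H_j(X, 1) = f_j'`); and so all compositions of them, of arbitrary length. These
maps have ramification; they do not split.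

**Theorem.** There is ONE set `E` of times of density zero such that for all `k`, `e_j`, `c_{j,i}` and
choices of coordinates, for every finitely generated ring `R ⊂ ℂ`, for all but finitely many times
outside `E`: for ALL `N` there are `n₀` and `T ≥ 1` such that for ALL closed subschemes `X` of `𝔸^N`
over `R`, ALL compositions `F` as above, all `α ∈ X(R)` and all closed `V ⊂ 𝔸^N` over `ℂ` the return
set `{n : F^n(α) ∈ V}` is the union of a finite set and of the `n ≥ n₀` in some residue classes modulo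
`T`. In particular it is a finite union of arithmetic progressions; the period `T` is the same for all
`X`, `F`, `α`, `V`. (4) For every `R` the same holds for 100 percent of the coefficient vectors in
large cubes with arbitrary centres.

The proof. (a) A finitely generated ring embeds in `ℤ_p` for all primes `p` of degree one of some
number field outside a finite set (Cassels; the embeddings of the starting library H927R2, here with
integrality). (b) For a positive proportion of the residues modulo `p` the forms have no zero on the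
projective line over `F_p`; then all the maps are étale at all points of `X(F_p)`, and by the arc lemma
(Bell; H936R2) the coordinates of the iterates are `p`-adic analytic in `n` along the residue classes
modulo a number `T` which depends only on `p` and `N` (the orbit is considered in the finite ring
`ℤ/p^4`, the product of the Jacobian matrices in `GL_N(ℤ/p^4)`). (c) The set of the coefficient vectors
without such a prime is pronull (N24), there are countably many of these sets, and the sequences visit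
pronull sets rarely.
-/

set_option autoImplicit false

namespace Pool.Agent.Results.MP_295d38_ag.KellerCompositions

open MvPolynomial MeasureTheory
open Pool.Agent.H936R2 (pt pt_map)
open Pool.Agent.TH838.DS (uu)
open Pool.Agent.U100.DM (Pr)
open Pool.Agent.U100.KC (BadF badF_null form_ne arcZ exists_sets exists_local_int)
open Pool.Agent.N24.RW (Walk orb words)
open Pool.Agent.N24.KM (Koksma)
open Pool.Agent.N918.EQ (Equi)

/-- Indices of the coefficients of `k` binary forms, that of index `j` being of degree `e j`. -/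
abbrev Jdx (k : ℕ) (e : Fin k → ℕ) : Type := Σ j : Fin k, Fin (e j + 1)

/-- The self-map of `R^N` given by `N` polynomials over `R`. -/
noncomputable def act {R : Type} [CommRing R] {N : ℕ} (F : Fin N → MvPolynomial (Fin N) R)
    (x : Fin N → R) : Fin N → R :=
  fun i => eval x (F i)

/-- The Jacobian determinant. -/
noncomputable def jdet {R : Type} [CommRing R] {N : ℕ} (F : Fin N → MvPolynomial (Fin N) R) :
    MvPolynomial (Fin N) R :=
  (Matrix.of fun i j => pderiv j (F i)).det

/-- The composition `F ∘ G`. -/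
noncomputable def compose {R : Type} [CommRing R] {N : ℕ} (F G : Fin N → MvPolynomial (Fin N) R) :
    Fin N → MvPolynomial (Fin N) R :=
  fun i => bind₁ G (F i)

/-- The value at `(a, b)` of the binary form `∑ c_{j,i} v_{j,i} X^i Y^(e_j - i)`. -/
def value {k : ℕ} {e : Fin k → ℕ} (c v : Jdx k e → ℤ) {A : Type} [CommRing A] (j : Fin k)
    (a b : A) : A :=
  ∑ i : Fin (e j + 1), ((c ⟨j, i⟩ * v ⟨j, i⟩ : ℤ) : A) * (a ^ (i : ℕ) * b ^ (e j - (i : ℕ)))

/-- Let `I` be an ideal of `R[X_1, …, X_N]`, which defines the closed subscheme `X = V(I)` of `𝔸^N`.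
The polynomial maps which are compositions of maps `F` which map `X` to `X` and whose Jacobian
determinant divides on `X` (that is, modulo `I`) a product of values of the binary forms at
polynomials which are coprime on `X`. -/
inductive Adm {k : ℕ} {e : Fin k → ℕ} (c v : Jdx k e → ℤ) (R : Type) [CommRing R] (N : ℕ)
    (I : Ideal (MvPolynomial (Fin N) R)) : (Fin N → MvPolynomial (Fin N) R) → Prop
  | base (F : Fin N → MvPolynomial (Fin N) R) (hI : ∀ f ∈ I, bind₁ F f ∈ I)
      (n : ℕ) (j : Fin n → Fin k) (a b : Fin n → MvPolynomial (Fin N) R)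
      (hab : ∀ i, ∃ u w, u * a i + w * b i - 1 ∈ I)
      (h : ∃ q, jdet F * q - ∏ i, value c v (j i) (a i) (b i) ∈ I) : Adm c v R N I F
  | comp (F G : Fin N → MvPolynomial (Fin N) R) (hF : Adm c v R N I F) (hG : Adm c v R N I G) :
      Adm c v R N I (compose F G)

/-- The Dynamical Mordell-Lang property of `F : X → X`, `X = V(I) ⊂ 𝔸^N`, for all points of `X` over
`R` and all closed `V ⊂ 𝔸^N` over `ℂ` (the common zeros of a set `S` of polynomials), in the strong form:
the return set is the union of a finite set and of the `n ≥ n₀` in some residue classes modulo `T`. -/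
def DMLPeriod (R : Subring ℂ) {N : ℕ} (I : Ideal (MvPolynomial (Fin N) R))
    (F : Fin N → MvPolynomial (Fin N) R) (n₀ T : ℕ) : Prop :=
  ∀ α : Fin N → R, (∀ f ∈ I, eval α f = 0) → ∀ S : Set (MvPolynomial (Fin N) ℂ),
    ∃ A B : Finset ℕ, {n : ℕ | ∀ g ∈ S, eval (fun i => (((act F)^[n] α i : R) : ℂ)) g = 0} =
      {n : ℕ | n ∈ A ∨ (n₀ ≤ n ∧ n % T ∈ B)}

/-- `E` has density zero relative to the sets `S n` of times. -/
def NullIn (S : ℕ → Finset ℕ) (E : Set ℕ) : Prop :=
  ∀ ε : ℝ, 0 < ε → ∃ n₀ : ℕ, ∀ n : ℕ, n₀ ≤ n →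
    (({t : ℕ | t ∈ S n ∧ t ∈ E}.ncard : ℕ) : ℝ) ≤ ε * (S n).card

/-- For all `N` there are `n₀` and `T ≥ 1` such that all admissible self-maps of all closed subschemes
of `𝔸^N` over `R` have the Dynamical Mordell-Lang property with `n₀` and `T`. -/
def AllDML {k : ℕ} {e : Fin k → ℕ} (c v : Jdx k e → ℤ) (R : Subring ℂ) : Prop :=
  ∀ N : ℕ, ∃ n₀ T : ℕ, 0 < T ∧ ∀ (I : Ideal (MvPolynomial (Fin N) R))
    (F : Fin N → MvPolynomial (Fin N) R), Adm c v R N I F → DMLPeriod R I F n₀ T

/-- There is ONE set `E` of times of density zero such that for all `k`, all degrees `e_j ≥ 2`, all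
`c_{j,i} ≠ 0` and all choices of different coordinates of the sequence `x` of integral vectors as
`v_{j,i}`, for every finitely generated ring `R ⊂ ℂ`, all admissible maps over `R` have the Dynamical
Mordell-Lang property, at all but finitely many times outside `E`. -/
def OneNullSet {r : ℕ} (S : ℕ → Finset ℕ) (x : ℕ → Fin r → ℤ) : Prop :=
  ∃ E : Set ℕ, NullIn S E ∧ ∀ (k : ℕ) (e : Fin k → ℕ), (∀ j, 2 ≤ e j) →
    ∀ c : Jdx k e → ℤ, (∀ q, c q ≠ 0) → ∀ l : Jdx k e → Fin r, Function.Injective l →
      ∀ s : Finset ℂ, {t : ℕ | t ∉ E ∧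
        ¬ AllDML c (fun q => x t (l q)) (Subring.closure (s : Set ℂ))}.Finite

/-! ### The chain rule -/

theorem pderiv_bind {O : Type} [CommRing O] {N : ℕ} (G : Fin N → MvPolynomial (Fin N) O)
    (f : MvPolynomial (Fin N) O) (j : Fin N) :
    pderiv j (bind₁ G f) = ∑ l, bind₁ G (pderiv l f) * pderiv j (G l) := by
  induction f using MvPolynomial.induction_on with
  | C a => simp
  | add p q hp hq => simp only [map_add, hp, hq, add_mul, Finset.sum_add_distrib]
  | mul_X p i hp =>
    rw [map_mul, bind₁_X_right, Derivation.leibniz, hp]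
    simp only [Derivation.leibniz, smul_eq_mul, map_add, map_mul, bind₁_X_right, pderiv_X,
      add_mul, Finset.sum_add_distrib]
    congr 1
    · rw [Finset.sum_eq_single i]
      · simp
      · intro l _ hl
        rw [Pi.single_eq_of_ne (Ne.symm hl)]
        simp
      · simp
    · rw [Finset.mul_sum]
      refine Finset.sum_congr rfl fun l _ => ?_
      ring

theorem jac_comp {O : Type} [CommRing O] {N : ℕ} (F G : Fin N → MvPolynomial (Fin N) O)
    (x : Fin N → O) : Pool.Agent.H936R2.jac (compose F G) x =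
      Pool.Agent.H936R2.jac F (act G x) * Pool.Agent.H936R2.jac G x := by
  ext i j
  simp only [Pool.Agent.H936R2.jac, compose, Matrix.mul_apply]
  rw [pderiv_bind, map_sum]
  refine Finset.sum_congr rfl fun l _ => ?_
  rw [map_mul]
  congr 1
  have h : eval x (bind₁ G (pderiv l (F i))) = eval (fun j => eval x (G j)) (pderiv l (F i)) := by
    rw [← MvPolynomial.coe_aeval_eq_eval x, ← MvPolynomial.coe_aeval_eq_eval]
    change aeval x (bind₁ G (pderiv l (F i))) = _
    rw [aeval_bind₁]
    rfl
  exact h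

theorem eval_jdet {O : Type} [CommRing O] {N : ℕ} (F : Fin N → MvPolynomial (Fin N) O)
    (x : Fin N → O) : eval x (jdet F) = (Pool.Agent.H936R2.jac F x).det := by
  unfold jdet
  rw [RingHom.map_det]
  rfl

theorem map_jdet {O O' : Type} [CommRing O] [CommRing O'] (φ : O →+* O') {N : ℕ}
    (F : Fin N → MvPolynomial (Fin N) O) : map φ (jdet F) = jdet fun i => map φ (F i) := by
  unfold jdet
  rw [RingHom.map_det]
  congr 1
  ext1 i j
  simp only [RingHom.mapMatrix_apply, Matrix.map_apply, Matrix.of_apply]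
  rw [pderiv_map]

theorem map_value {k : ℕ} {e : Fin k → ℕ} (c v : Jdx k e → ℤ) {A A' : Type} [CommRing A]
    [CommRing A'] (φ : A →+* A') (j : Fin k) (a b : A) :
    φ (value c v j a b) = value c v j (φ a) (φ b) := by
  unfold value
  rw [map_sum]
  refine Finset.sum_congr rfl fun i _ => ?_
  rw [map_mul, map_mul, map_pow, map_pow, map_intCast]

theorem eval_bind {O : Type} [CommRing O] {N : ℕ} (G : Fin N → MvPolynomial (Fin N) O)
    (f : MvPolynomial (Fin N) O) (x : Fin N → O) : eval x (bind₁ G f) = eval (act G x) f := by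
  rw [← MvPolynomial.coe_aeval_eq_eval x, ← MvPolynomial.coe_aeval_eq_eval]
  change aeval x (bind₁ G f) = _
  rw [aeval_bind₁]
  rfl

/-- admissible maps preserve the points of the closed subscheme -/
theorem Adm.inv {k : ℕ} {e : Fin k → ℕ} {c v : Jdx k e → ℤ} {R : Type} [CommRing R] {N : ℕ}
    {I : Ideal (MvPolynomial (Fin N) R)} {O : Type} [CommRing O] (ρ : R →+* O)
    {F : Fin N → MvPolynomial (Fin N) R} (hF : Adm c v R N I F) (x : Fin N → O)
    (hx : ∀ f ∈ I, eval x (map ρ f) = 0) :
    ∀ f ∈ I, eval (act (fun i => map ρ (F i)) x) (map ρ f) = 0 := by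
  induction hF generalizing x with
  | base F hI n j a b hab h =>
    intro f hf
    rw [← eval_bind]
    have h1 := hx _ (hI f hf)
    rw [map_bind₁] at h1
    exact h1
  | comp F G hF hG ihF ihG =>
    have h1 : (fun i => map ρ (compose F G i)) =
        compose (fun i => map ρ (F i)) (fun i => map ρ (G i)) := by
      funext i
      simp only [compose]
      rw [map_bind₁]
    have h2 : act (compose (fun i => map ρ (F i)) (fun i => map ρ (G i))) x =
        act (fun i => map ρ (F i)) (act (fun i => map ρ (G i)) x) := by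
      funext i
      exact eval_bind _ _ _
    rw [h1, h2]
    exact ihF _ (ihG x hx)

/-- admissible maps are étale at the points over `F_p` -/
theorem Adm.det_ne {k : ℕ} {e : Fin k → ℕ} {c v : Jdx k e → ℤ} {R : Type} [CommRing R] {N : ℕ}
    {I : Ideal (MvPolynomial (Fin N) R)} {p : ℕ} [Fact p.Prime] (ρ : R →+* ZMod p)
    (hv : ∀ (j : Fin k) (x : Option (ZMod p)),
      uu x (fun i => ((c ⟨j, i⟩ * v ⟨j, i⟩ : ℤ) : ZMod p)) ≠ 0)
    {F : Fin N → MvPolynomial (Fin N) R} (hF : Adm c v R N I F) (x : Fin N → ZMod p)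
    (hx : ∀ f ∈ I, eval x (map ρ f) = 0) :
    (Pool.Agent.H936R2.jac (fun i => map ρ (F i)) x).det ≠ 0 := by
  induction hF generalizing x with
  | base F hI n j a b hab h =>
    intro h0
    obtain ⟨q, hq⟩ := h
    have h1 := hx _ hq
    simp only [map_sub, map_mul, map_prod, map_jdet, eval_jdet, h0, zero_mul, map_value,
      zero_sub, neg_eq_zero] at h1
    rw [Finset.prod_eq_zero_iff] at h1
    obtain ⟨i, -, hi⟩ := h1
    refine form_ne (hv (j i)) (eval x (map ρ (a i))) (eval x (map ρ (b i))) ?_ hi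
    rintro ⟨ha, hb⟩
    obtain ⟨u, w, huw⟩ := hab i
    have h2 := hx _ huw
    simp only [map_sub, map_add, map_mul, ha, hb, mul_zero, add_zero, map_one, zero_sub,
      neg_eq_zero] at h2
    exact one_ne_zero h2
  | comp F G hF hG ihF ihG =>
    have h1 : (fun i => map ρ (compose F G i)) =
        compose (fun i => map ρ (F i)) (fun i => map ρ (G i)) := by
      funext i
      simp only [compose]
      rw [map_bind₁]
    rw [h1, jac_comp, Matrix.det_mul]
    exact mul_ne_zero (ihF _ (hG.inv ρ x hx)) (ihG _ hx)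

/-- **The local criterion.** -/
theorem dml_of (s : Finset ℂ) : ∃ P : Pr, ∀ {k : ℕ} {e : Fin k → ℕ} (c v : Jdx k e → ℤ),
    v ∉ BadF e c P.C → ∀ N : ℕ, ∃ n₀ T : ℕ, 0 < T ∧
      ∀ (I : Ideal (MvPolynomial (Fin N) (Subring.closure (s : Set ℂ))))
        (F : Fin N → MvPolynomial (Fin N) (Subring.closure (s : Set ℂ))),
        Adm c v (Subring.closure (s : Set ℂ)) N I F →
          DMLPeriod (Subring.closure (s : Set ℂ)) I F n₀ T := by
  obtain ⟨K, i1, i2, S₀, hloc⟩ := exists_local_int s
  refine ⟨⟨{p | Pool.Agent.H927R2.RD.DegOne K p ∧ p ∉ S₀}, K, i1, i2, S₀, rfl⟩,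
    fun {k e} c v hv N => ?_⟩
  unfold BadF at hv
  rw [Set.mem_ofPred_eq] at hv
  push Not at hv
  obtain ⟨p, hpP, hpp, hg⟩ := hv
  obtain ⟨τ, ρ, hτ⟩ := hloc p hpP.2 hpP.1
  obtain ⟨n₀, T, hT, harc⟩ := arcZ p (Fin N)
  refine ⟨n₀, T, hT, fun I F hF α hα S => ?_⟩
  apply exists_sets _ n₀ T hT
  intro r hinf t
  set π : Subring.closure (s : Set ℂ) →+* ZMod p := (PadicInt.toZMod (p := p)).comp ρ with hπ
  have horb : ∀ n, ∀ f ∈ I, eval (fun i => π ((act F)^[n] α i)) (map π f) = 0 := by
    intro n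
    induction n with
    | zero =>
      intro f hf
      have h1 := eval₂_comp_left π (RingHom.id _) α f
      rw [RingHom.comp_id] at h1
      rw [eval_map]
      refine h1.symm.trans ?_
      have h2 : eval₂ (RingHom.id _) α f = 0 := hα f hf
      rw [h2, map_zero]
    | succ n ih =>
      have h1 := hF.inv π (fun i => π ((act F)^[n] α i)) ih
      have h2 := pt_map π F ((act F)^[n] α) 1
      rw [Function.iterate_one, Function.iterate_one] at h2
      have h3 : act (fun i => map π (F i)) (fun i => π ((act F)^[n] α i)) =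
          fun i => π ((act F)^[n + 1] α i) := by
        rw [Function.iterate_succ_apply']
        exact h2
      rw [h3] at h1
      exact h1
  have hpt : ∀ n, (pt fun i => map ρ (F i))^[n] (fun i => ρ (α i)) =
      fun i => ρ ((act F)^[n] α i) := by
    intro n
    rw [pt_map]
    rfl
  have hdet : ∀ n, (Pool.Agent.H936R2.jac (fun i => map PadicInt.toZMod (map ρ (F i)))
      (fun i => PadicInt.toZMod ((pt fun i => map ρ (F i))^[n] (fun i => ρ (α i)) i))).det ≠ 0 := by
    intro n
    have h1 := hF.det_ne π hg (fun i => π ((act F)^[n] α i)) (horb n)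
    simp only [hπ, ← map_map] at h1
    rw [hpt]
    exact h1
  have hit : ∀ n, (fun i => algebraMap ℚ_[p] (PadicAlgCl p)
      (((pt fun i => map ρ (F i))^[n] (fun i => ρ (α i)) i : ℤ_[p]) : ℚ_[p])) =
      fun i => τ (((act F)^[n] α i : Subring.closure (s : Set ℂ)) : ℂ) := by
    intro n
    rw [hpt]
    funext i
    rw [hτ]
  have hval : ∀ n (g : MvPolynomial (Fin N) ℂ),
      (eval (fun i => algebraMap ℚ_[p] (PadicAlgCl p)
        (((pt fun i => map ρ (F i))^[n] (fun i => ρ (α i)) i : ℤ_[p]) : ℚ_[p])) (map τ g) = 0 ↔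
        eval (fun i => (((act F)^[n] α i : Subring.closure (s : Set ℂ)) : ℂ)) g = 0) := by
    intro n g
    rw [hit]
    have e1 : eval (fun i => τ (((act F)^[n] α i : Subring.closure (s : Set ℂ)) : ℂ)) (map τ g) =
        τ (eval (fun i => (((act F)^[n] α i : Subring.closure (s : Set ℂ)) : ℂ)) g) := by
      rw [eval_map]
      have h := eval₂_comp_left τ (RingHom.id _)
        (fun i => (((act F)^[n] α i : Subring.closure (s : Set ℂ)) : ℂ)) g
      rw [RingHom.comp_id] at h
      exact h.symm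
    rw [e1, map_eq_zero]
  intro g hg
  rw [← hval]
  refine harc (fun i => map ρ (F i)) (fun i => ρ (α i)) hdet r (map τ g) ?_ t
  refine hinf.mono fun m hm => ?_
  rw [Set.mem_ofPred_eq] at hm
  rw [Set.mem_ofPred_eq, hval]
  exact hm g hg

/-! ### Countably many pronull sets -/

/-- the indices -/
abbrev Ind (r : ℕ) : Type :=
  Σ k : ℕ, Σ e : Fin k → ℕ, (Jdx k e → ℤ) × (Jdx k e → Fin r) × Pr

/-- the sets -/
def BB {r : ℕ} : Ind r → Set (Fin r → ℤ)
  | ⟨_, e, c, l, P⟩ =>
    {z | (∀ j, 2 ≤ e j) ∧ (∀ q, c q ≠ 0) ∧ Function.Injective l ∧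
      (fun q => z (l q)) ∈ BadF e c P.C}

theorem bb_null {r : ℕ} (y : Ind r) : Pool.Agent.N24.RW.ProNull (BB y) := by
  have hmono := (Pool.Agent.N24.RW.clo (Fin r)).1
  obtain ⟨k, e, c, l, P⟩ := y
  by_cases hl : (∀ j, 2 ≤ e j) ∧ (∀ q, c q ≠ 0) ∧ Function.Injective l
  · exact hmono _ _ (fun z hz => hz.2.2.2)
      (Pool.Agent.U100.ZP.proNull_comp (badF_null hl.1 hl.2.1 P) hl.2.2)
  · exact hmono _ _ (fun z hz => (hl ⟨hz.1, hz.2.1, hz.2.2.1⟩).elim)
      Pool.Agent.U100.ZP.proNull_empty

theorem oneNullSet_of {r : ℕ} (S : ℕ → Finset ℕ) (x : ℕ → Fin r → ℤ)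
    (hx : ∀ y : Ind r, Pool.Agent.N918.EQ.RareIn S x (BB y)) : OneNullSet S x := by
  obtain ⟨E, hE, hfin⟩ := Pool.Agent.U100.ZP.oneSet S x BB hx
  refine ⟨E, hE, fun k e he c hc l hl s => ?_⟩
  obtain ⟨P, hP⟩ := dml_of s
  refine (hfin ⟨k, e, c, l, P⟩).subset ?_
  rintro t ⟨ht, hbad⟩
  refine ⟨ht, ?_⟩
  by_contra hcon
  apply hbad
  exact hP c _ fun h => hcon ⟨he, hc, hl, h⟩

theorem cubes {k : ℕ} {e : Fin k → ℕ} (he : ∀ j, 2 ≤ e j) {c : Jdx k e → ℤ}
    (hc : ∀ q, c q ≠ 0) (s : Finset ℂ) (ε : ℝ) (hε : 0 < ε) :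
    ∃ H₀ : ℕ, ∀ H : ℕ, H₀ ≤ H → ∀ b : Jdx k e → ℤ,
      (({v : Jdx k e → ℤ | (∀ q, |v q - b q| ≤ (H : ℤ)) ∧
        ¬ AllDML c v (Subring.closure (s : Set ℂ))}.ncard : ℕ) : ℝ) ≤
          ε * (2 * H + 1 : ℝ) ^ Fintype.card (Jdx k e) := by
  obtain ⟨P, hP⟩ := dml_of s
  obtain ⟨H₀, hH₀⟩ := Pool.Agent.U100.ZP.cube_of_null (badF_null he hc P) ε hε
  refine ⟨H₀, fun H hH b => le_trans ?_ (hH₀ H hH b)⟩
  have hfin : {v : Jdx k e → ℤ | (∀ q, |v q - b q| ≤ (H : ℤ)) ∧ v ∈ BadF e c P.C}.Finite := by
    refine (Set.Finite.pi' (fun q => Set.finite_Icc (b q - (H : ℤ)) (b q + H))).subset ?_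
    rintro v ⟨hv, -⟩ q
    have := abs_le.1 (hv q)
    exact ⟨by linarith [this.1], by linarith [this.2]⟩
  have hsub : {v : Jdx k e → ℤ | (∀ q, |v q - b q| ≤ (H : ℤ)) ∧
      ¬ AllDML c v (Subring.closure (s : Set ℂ))} ⊆
      {v : Jdx k e → ℤ | (∀ q, |v q - b q| ≤ (H : ℤ)) ∧ v ∈ BadF e c P.C} := by
    rintro v ⟨hv1, hv2⟩
    refine ⟨hv1, ?_⟩
    by_contra hcon
    exact hv2 (hP c v hcon)
  exact_mod_cast Set.ncard_le_ncard hsub hfin

/-- **Dynamical Mordell-Lang for compositions of étale maps of affine varieties and random ramified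
maps.** -/
theorem result :
    -- (1) random orbits of thin groups
    (∀ r : ℕ, 2 ≤ r → ∀ (W : Walk (Fin r)) (v : Fin r → ℤ), v ≠ 0 →
      ∀ᵐ w ∂(words W.m), OneNullSet Finset.range (orb W v w)) ∧
    -- (2) metric sequences
    (∀ r : ℕ,
      (∀ (a b : Fin r → ℝ) (f : Fin r → ℕ → ℝ → ℝ), (∀ i, a i < b i) →
        (∀ i, Koksma (a i) (b i) (f i)) →
        ∀ᵐ α : Fin r → ℝ, (∀ i, α i ∈ Set.Icc (a i) (b i)) →
          OneNullSet Finset.range (fun t i => ⌊f i t (α i)⌋)) ∧
      (∀ (a : Fin r → ℕ → ℝ) (δ : ℝ), 0 < δ → (∀ i s t, s ≠ t → δ ≤ |a i s - a i t|) →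
        ∀ᵐ α : Fin r → ℝ, OneNullSet Finset.range (fun t i => ⌊a i t * α i⌋)) ∧
      (∀ (q : ℕ → ℕ) (ξ : Fin r → ℝ), Function.Injective q → (∀ i, ξ i ≠ 0) →
        ∀ᵐ α : Fin r → ℝ, (∀ i, 1 < α i) →
          OneNullSet Finset.range (fun t i => ⌊ξ i * α i ^ q t⌋))) ∧
    -- (3) equidistributed sequences, with arbitrary sets of times
    (∀ (r : ℕ) (S : ℕ → Finset ℕ) (x : ℕ → Fin r → ℤ), Equi S x → OneNullSet S x) ∧
    -- (4) almost all coefficient vectors in large cubes with arbitrary centres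
    (∀ (k : ℕ) (e : Fin k → ℕ), (∀ j, 2 ≤ e j) → ∀ c : Jdx k e → ℤ, (∀ q, c q ≠ 0) →
      ∀ s : Finset ℂ, ∀ ε : ℝ, 0 < ε → ∃ H₀ : ℕ, ∀ H : ℕ, H₀ ≤ H → ∀ b : Jdx k e → ℤ,
        (({v : Jdx k e → ℤ | (∀ q, |v q - b q| ≤ (H : ℤ)) ∧
          ¬ AllDML c v (Subring.closure (s : Set ℂ))}.ncard : ℕ) : ℝ) ≤
            ε * (2 * H + 1 : ℝ) ^ Fintype.card (Jdx k e)) :=
  ⟨fun _ hr => (Pool.Agent.U100.ZP.all_parts BB bb_null _ oneNullSet_of).1 hr,
    fun r => (Pool.Agent.U100.ZP.all_parts BB bb_null _ (oneNullSet_of (r := r))).2.1,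
    fun r => (Pool.Agent.U100.ZP.all_parts BB bb_null _ (oneNullSet_of (r := r))).2.2,
    fun _ _ he _ hc s ε hε => cubes he hc s ε hε⟩

end Pool.Agent.Results.MP_295d38_ag.KellerCompositions
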