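import Pool.Agent.U100.MQ.Master

/-!
# MP_295d38_ag: the Dynamical Mordell-Lang conjecture for monoids of maps with moved ramification

Let `σ` be a field automorphism of `ℂ`, with fixed field `K`, and let `X ⊆ 𝔸^n` be a closed
subvariety (over a finite extension of `K`, stable under the maps below). We consider the monoid
`M(σ, X)` of polynomial maps over `K` with `X → X` generated by

* the maps `F` with *moved ramification*: the points of `X` at which the Jacobian determinant of `F`
  vanishes lie on finitely many hypersurfaces `G = 0`, each with finitely many conjugates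
  `σ^m G = 0`, `m ≥ 0`, which have no common point in `X`. (No hypersurface at all: the Jacobian
  determinant has no zero on `X`. So all automorphisms of `𝔸^n` over `K` are in `M(σ, 𝔸^n)`.)
* the split maps `(x_1, …, x_n) ↦ (f_1(x_1), …, f_n(x_n))`, `f_i ∈ K[x]` polynomials such that no zero of
  a derivative `f_i'` is in `K`; for instance all `f_i'` irreducible over a field `k` of degree at
  least two with the same splitting field over `k`, which has an automorphism over `k` without
  fixed zeros (Jordan), and `σ` an extension of this automorphism.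

**Theorem.** All elements of the monoid `M(σ, X)` have the Dynamical Mordell-Lang property: for all
`α ∈ X(K)` and all closed `V ⊆ 𝔸^n` over `ℂ` the return set is a finite union of arithmetic
progressions.

So for instance for all compositions of polynomial automorphisms of `𝔸^n` over `ℚ` and of maps
`(f(x_1), x_2, …, x_n)` with a fixed polynomial `f ∈ ℚ[x]` of degree at least three with irreducible
derivative, at all rational points.

The proof. By Hilbert's irreducibility theorem and Chebotarev's density theorem (for number fields)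
there is a homomorphism from the finitely generated ring of all data to the algebraic closure of
`𝔽_p` on which `σ` acts as the Frobenius map, for infinitely many `p`, and a compatible
embedding in `ℤ_p` of the subring of the data fixed by `σ`. The reductions of the points of the
orbit are in `X(𝔽_p)`; if one of them is on `G = 0`, then by Frobenius on all conjugates: but they
have no common point (Nullstellensatz). So the map is étale at all these points modulo `p`, and
`p`-adic interpolation applies.
-/

set_option autoImplicit false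

open MvPolynomial

namespace Pool.Agent.Results.MP_295d38_ag.MovedRamificationMonoid

/-- The self-map of `ℂ^n` given by `n` polynomials. -/
noncomputable def act {n : ℕ} (F : Fin n → MvPolynomial (Fin n) ℂ) (x : Fin n → ℂ) : Fin n → ℂ :=
  fun i => eval x (F i)

/-- The Jacobian determinant of `F` vanishes at `x`. -/
def Critical {n : ℕ} (F : Fin n → MvPolynomial (Fin n) ℂ) (x : Fin n → ℂ) : Prop :=
  (Matrix.of fun i j => eval x (pderiv j (F i))).det = 0

/-- `x` is in the closed subset `X = V(I)` of `𝔸^n`. -/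
def On {n : ℕ} (I : Finset (MvPolynomial (Fin n) ℂ)) (x : Fin n → ℂ) : Prop :=
  ∀ f ∈ I, eval x f = 0

/-- The polynomial with the coefficients `σ(c)`, `c` the coefficients of `G`. -/
noncomputable def conj {n : ℕ} (σ : ℂ ≃+* ℂ) (G : MvPolynomial (Fin n) ℂ) :
    MvPolynomial (Fin n) ℂ := map (σ : ℂ →+* ℂ) G

/-- `G` has finitely many conjugates under the powers of `σ`. -/
def FinConj {n : ℕ} (σ : ℂ ≃+* ℂ) (G : MvPolynomial (Fin n) ℂ) : Prop :=
  ∃ m : ℕ, 0 < m ∧ (conj σ)^[m] G = G

/-- `F` is a polynomial map over the fixed field of `σ` which maps `X = V(I)` to `X`. -/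
def Maps {n : ℕ} (σ : ℂ ≃+* ℂ) (I : Finset (MvPolynomial (Fin n) ℂ))
    (F : Fin n → MvPolynomial (Fin n) ℂ) : Prop :=
  (∀ i, conj σ (F i) = F i) ∧ ∀ x, On I x → On I (act F x)

/-- The ramification of `F` on `X = V(I)` is moved by `σ`: the critical points of `F` in `X` lie on
finitely many hypersurfaces `G = 0`, each with finitely many conjugates, which have no common point
in `X`. -/
def Moved {n : ℕ} (σ : ℂ ≃+* ℂ) (I : Finset (MvPolynomial (Fin n) ℂ))
    (F : Fin n → MvPolynomial (Fin n) ℂ) : Prop :=
  ∃ s : Finset (MvPolynomial (Fin n) ℂ),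
    (∀ x, On I x → Critical F x → ∃ G ∈ s, eval x G = 0) ∧
    ∀ G ∈ s, FinConj σ G ∧ ∀ x, On I x → ¬ ∀ m : ℕ, eval x ((conj σ)^[m] G) = 0

/-- The composition `F ∘ G`. -/
noncomputable def compose {n : ℕ} (F G : Fin n → MvPolynomial (Fin n) ℂ) :
    Fin n → MvPolynomial (Fin n) ℂ := fun i => bind₁ G (F i)

/-- The split map `(f_1(x_1), …, f_n(x_n))`. -/
noncomputable def split {n : ℕ} (f : Fin n → Polynomial ℂ) : Fin n → MvPolynomial (Fin n) ℂ :=
  fun i => Polynomial.aeval (X i) (f i)

/-- The monoid generated by the maps with moved ramification on `X = V(I)` and by the split maps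
without critical points (zeros of derivatives) in the fixed field of `σ`, all over this field and
with `X → X`. -/
inductive Mon {n : ℕ} (σ : ℂ ≃+* ℂ) (I : Finset (MvPolynomial (Fin n) ℂ)) :
    (Fin n → MvPolynomial (Fin n) ℂ) → Prop
  | moved (F : Fin n → MvPolynomial (Fin n) ℂ) (h : Maps σ I F) (hm : Moved σ I F) : Mon σ I F
  | split (f : Fin n → Polynomial ℂ) (h : Maps σ I (split f))
      (hf : ∀ i z, (f i).derivative.eval z = 0 → σ z ≠ z) : Mon σ I (split f)
  | comp (F G : Fin n → MvPolynomial (Fin n) ℂ) (hF : Mon σ I F) (hG : Mon σ I G) :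
      Mon σ I (compose F G)

/-! ### Compositions -/

theorem pderiv_bind {n : ℕ} (G : Fin n → MvPolynomial (Fin n) ℂ)
    (f : MvPolynomial (Fin n) ℂ) (j : Fin n) :
    pderiv j (bind₁ G f) = ∑ l, bind₁ G (pderiv l f) * pderiv j (G l) := by
  classical
  induction f using MvPolynomial.induction_on with
  | C a => simp
  | add p q hp hq =>
    rw [map_add, map_add, hp, hq, ← Finset.sum_add_distrib]
    refine Finset.sum_congr rfl fun i _ => ?_
    rw [map_add, map_add]
    ring
  | mul_X p i hp =>
    rw [map_mul, bind₁_X_right, pderiv_mul, hp]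
    have h1 : ∀ i', bind₁ G (pderiv i' (p * X i)) * pderiv j (G i') =
        bind₁ G (pderiv i' p) * pderiv j (G i') * G i +
          (if i' = i then bind₁ G p * pderiv j (G i) else 0) := by
      intro i'
      rw [pderiv_mul, pderiv_X, map_add, map_mul, map_mul, bind₁_X_right]
      by_cases h : i' = i
      · subst h
        rw [Pi.single_eq_same, if_pos rfl, map_one]
        ring
      · rw [Pi.single_eq_of_ne (Ne.symm h), if_neg h, map_zero]
        ring
    simp_rw [h1]
    rw [Finset.sum_add_distrib, Finset.sum_ite_eq', if_pos (Finset.mem_univ _), Finset.sum_mul]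

theorem eval_bind {n : ℕ} (G : Fin n → MvPolynomial (Fin n) ℂ) (P : MvPolynomial (Fin n) ℂ)
    (x : Fin n → ℂ) : eval x (bind₁ G P) = eval (act G x) P := by
  have h := eval₂Hom_bind₁ (RingHom.id ℂ) x G P
  exact h

theorem critical_comp {n : ℕ} (F G : Fin n → MvPolynomial (Fin n) ℂ) (x : Fin n → ℂ)
    (h : Critical (compose F G) x) : Critical G x ∨ Critical F (act G x) := by
  have h1 : (Matrix.of fun i j => eval x (pderiv j (compose F G i))) =
      (Matrix.of fun i j => eval (act G x) (pderiv j (F i))) *
        (Matrix.of fun i j => eval x (pderiv j (G i))) := by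
    ext i j
    rw [Matrix.mul_apply, Matrix.of_apply, compose, pderiv_bind, map_sum]
    refine Finset.sum_congr rfl fun l _ => ?_
    rw [map_mul, eval_bind]
    rfl
  unfold Critical at h
  rw [h1, Matrix.det_mul, mul_eq_zero] at h
  exact h.symm

theorem conj_bind {n : ℕ} (σ : ℂ ≃+* ℂ) (G : Fin n → MvPolynomial (Fin n) ℂ)
    (hG : ∀ i, conj σ (G i) = G i) (P : MvPolynomial (Fin n) ℂ) (m : ℕ) :
    (conj σ)^[m] (bind₁ G P) = bind₁ G ((conj σ)^[m] P) := by
  induction m with
  | zero => rfl
  | succ m ih =>
    rw [Function.iterate_succ_apply', Function.iterate_succ_apply', ih]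
    have h1 : (fun i => map (σ : ℂ →+* ℂ) (G i)) = G := _root_.funext hG
    rw [conj, map_bind₁, h1]
    rfl

/-! ### Split maps -/

theorem finite_orbit (σ : ℂ ≃+* ℂ) (g : Polynomial ℂ) (hg : g ≠ 0)
    (hσ : g.map (σ : ℂ →+* ℂ) = g) (c : ℂ) (hc : g.eval c = 0) : ∃ m : ℕ, 0 < m ∧ σ^[m] c = c := by
  classical
  have h1 : ∀ j : ℕ, σ^[j] c ∈ g.roots.toFinset := by
    intro j
    rw [Multiset.mem_toFinset, Polynomial.mem_roots hg, Polynomial.IsRoot.def]
    induction j with
    | zero => exact hc
    | succ j ih =>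
      have h2 : (g.map (σ : ℂ →+* ℂ)).eval ((σ : ℂ →+* ℂ) (σ^[j] c)) =
          (σ : ℂ →+* ℂ) (g.eval (σ^[j] c)) := Polynomial.eval_map_apply _ _
      rw [hσ, ih, map_zero] at h2
      rw [Function.iterate_succ_apply']
      exact h2
  obtain ⟨i, j, hij, h⟩ := Finite.exists_ne_map_eq_of_infinite
    (fun j : ℕ => (⟨σ^[j] c, h1 j⟩ : g.roots.toFinset))
  have h2 : σ^[i] c = σ^[j] c := congrArg Subtype.val h
  wlog hlt : i < j generalizing i j
  · exact this j i hij.symm h.symm h2.symm (lt_of_le_of_ne (not_lt.1 hlt) hij.symm)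
  refine ⟨j - i, by omega, ?_⟩
  apply (σ.injective.iterate i)
  rw [← Function.iterate_add_apply, h2]
  congr 1
  omega

theorem critical_split {n : ℕ} (f : Fin n → Polynomial ℂ) (x : Fin n → ℂ)
    (h : Critical (split f) x) : ∃ i, (f i).derivative.eval (x i) = 0 := by
  classical
  have h1 : (Matrix.of fun i j => eval x (pderiv j (split f i))) =
      Matrix.diagonal fun i => (f i).derivative.eval (x i) := by
    ext i j
    rw [Matrix.of_apply, Matrix.diagonal_apply, split]
    have h2 : pderiv j (Polynomial.aeval (X i) (f i)) =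
        Polynomial.aeval (X i) (f i).derivative * pderiv j (X i : MvPolynomial (Fin n) ℂ) := by
      have h3 := (pderiv j).map_aeval (f i) (X i : MvPolynomial (Fin n) ℂ)
      rw [h3, smul_eq_mul]
    have h4 : ∀ g : Polynomial ℂ, eval x (Polynomial.aeval (X i) g : MvPolynomial (Fin n) ℂ) =
        g.eval (x i) := by
      intro g
      have h5 := Polynomial.aeval_algHom_apply (aeval x : MvPolynomial (Fin n) ℂ →ₐ[ℂ] ℂ) (X i) g
      rw [aeval_X] at h5
      rw [← Polynomial.coe_aeval_eq_eval, h5]
      rfl
    rw [h2, map_mul, h4, pderiv_X]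
    by_cases hij : i = j
    · subst hij
      rw [if_pos rfl, Pi.single_eq_same, map_one, mul_one]
    · rw [if_neg hij, Pi.single_eq_of_ne hij, map_zero, mul_zero]
  unfold Critical at h
  rw [h1, Matrix.det_diagonal, Finset.prod_eq_zero_iff] at h
  obtain ⟨i, -, hi⟩ := h
  exact ⟨i, hi⟩

theorem split_moved {n : ℕ} (σ : ℂ ≃+* ℂ) (I : Finset (MvPolynomial (Fin n) ℂ))
    (f : Fin n → Polynomial ℂ) (h : Maps σ I (split f))
    (hf : ∀ i z, (f i).derivative.eval z = 0 → σ z ≠ z) : Moved σ I (split f) := by
  classical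
  have hfix : ∀ i, (f i).map (σ : ℂ →+* ℂ) = f i := by
    intro i
    have h1 := h.1 i
    rw [conj, split] at h1
    have h2 : map (σ : ℂ →+* ℂ) (Polynomial.aeval (X i) (f i) : MvPolynomial (Fin n) ℂ) =
        Polynomial.aeval (X i) ((f i).map (σ : ℂ →+* ℂ)) := by
      rw [Polynomial.aeval_def, Polynomial.aeval_def, Polynomial.hom_eval₂, map_X,
        Polynomial.eval₂_map]
      congr 1
      ext c : 1
      exact map_C _ _
    rw [h2] at h1
    have h3 : Function.Injective
        (Polynomial.aeval (X i : MvPolynomial (Fin n) ℂ) : Polynomial ℂ →ₐ[ℂ] _) := by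
      rw [← transcendental_iff_injective]
      exact MvPolynomial.transcendental_X ℂ i
    exact h3 h1
  have hd0 : ∀ i, (f i).derivative ≠ 0 := by
    intro i h0
    exact hf i 0 (by rw [h0, Polynomial.eval_zero]) (map_zero σ)
  have hdσ : ∀ i, (f i).derivative.map (σ : ℂ →+* ℂ) = (f i).derivative := by
    intro i
    rw [← Polynomial.derivative_map, hfix]
  have hconj : ∀ (i : Fin n) (c : ℂ) (m : ℕ),
      (conj σ)^[m] (X i - C c : MvPolynomial (Fin n) ℂ) = X i - C (σ^[m] c) := by
    intro i c m
    induction m with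
    | zero => rfl
    | succ m ih =>
      rw [Function.iterate_succ_apply', ih, Function.iterate_succ_apply', conj, map_sub, map_X,
        map_C]
      rfl
  refine ⟨Finset.univ.biUnion fun i => (f i).derivative.roots.toFinset.image fun c => X i - C c,
    ?_, ?_⟩
  · intro x _ hx
    obtain ⟨i, hi⟩ := critical_split f x hx
    refine ⟨X i - C (x i), Finset.mem_biUnion.2 ⟨i, Finset.mem_univ i, Finset.mem_image.2
      ⟨x i, ?_, rfl⟩⟩, ?_⟩
    · rw [Multiset.mem_toFinset, Polynomial.mem_roots (hd0 i)]
      exact hi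
    · rw [map_sub, eval_X, eval_C, sub_self]
  · intro G hG
    obtain ⟨i, -, hG⟩ := Finset.mem_biUnion.1 hG
    obtain ⟨c, hc, rfl⟩ := Finset.mem_image.1 hG
    rw [Multiset.mem_toFinset, Polynomial.mem_roots (hd0 i), Polynomial.IsRoot.def] at hc
    constructor
    · obtain ⟨m, hm, h1⟩ := finite_orbit σ _ (hd0 i) (hdσ i) c hc
      refine ⟨m, hm, ?_⟩
      rw [hconj, h1]
    · intro x _ hx
      have h1 := hx 0
      have h2 := hx 1
      rw [hconj, map_sub, eval_X, eval_C, sub_eq_zero] at h1 h2
      apply hf i c hc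
      have h3 : σ^[1] c = σ c := rfl
      have h4 : σ^[0] c = c := rfl
      rw [← h3, ← h2, h1, h4]

theorem mon_moved {n : ℕ} (σ : ℂ ≃+* ℂ) (I : Finset (MvPolynomial (Fin n) ℂ))
    (F : Fin n → MvPolynomial (Fin n) ℂ) (h : Mon σ I F) : Maps σ I F ∧ Moved σ I F := by
  classical
  induction h with
  | moved F h hm => exact ⟨h, hm⟩
  | split f h hf => exact ⟨h, split_moved σ I f h hf⟩
  | comp F G _ _ hF hG =>
    obtain ⟨⟨hF1, hF2⟩, sF, hsF, hsF'⟩ := hF
    obtain ⟨⟨hG1, hG2⟩, sG, hsG, hsG'⟩ := hG
    have hact : ∀ x, act (compose F G) x = act F (act G x) := by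
      intro x
      funext i
      exact eval_bind G (F i) x
    refine ⟨⟨?_, ?_⟩, sF.image (bind₁ G) ∪ sG, ?_, ?_⟩
    · intro i
      have h1 := conj_bind σ G hG1 (F i) 1
      rw [Function.iterate_one, hF1 i] at h1
      exact h1
    · intro x hx
      rw [hact]
      exact hF2 _ (hG2 x hx)
    · intro x hx hc
      rcases critical_comp F G x hc with h1 | h1
      · obtain ⟨H, hH, h2⟩ := hsG x hx h1
        exact ⟨H, Finset.mem_union_right _ hH, h2⟩
      · obtain ⟨H, hH, h2⟩ := hsF _ (hG2 x hx) h1
        refine ⟨bind₁ G H, Finset.mem_union_left _ (Finset.mem_image.2 ⟨H, hH, rfl⟩), ?_⟩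
        rw [eval_bind]
        exact h2
    · intro H hH
      rcases Finset.mem_union.1 hH with hH | hH
      · obtain ⟨P, hP, rfl⟩ := Finset.mem_image.1 hH
        obtain ⟨⟨m, hm, hmP⟩, h2⟩ := hsF' P hP
        refine ⟨⟨m, hm, by rw [conj_bind σ G hG1, hmP]⟩, fun x hx h3 => ?_⟩
        apply h2 _ (hG2 x hx)
        intro m'
        have h4 := h3 m'
        rw [conj_bind σ G hG1, eval_bind] at h4
        exact h4
      · exact hsG' H hH

/-- **Theorem.** Let `X = V(I)` be a closed subset of `𝔸^n` given by polynomials with finitely many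
conjugates under the powers of `σ`, and `F` in the monoid generated by the maps with moved
ramification. Then for all points `α` of `X` over the fixed field of `σ` and all closed
`V ⊆ 𝔸^n` over `ℂ` the return set is a finite union of arithmetic progressions. -/
theorem result (σ : ℂ ≃+* ℂ) (n : ℕ) (I : Finset (MvPolynomial (Fin n) ℂ))
    (hI : ∀ f ∈ I, FinConj σ f) (F : Fin n → MvPolynomial (Fin n) ℂ) (hF : Mon σ I F)
    (α : Fin n → ℂ) (hα : On I α) (hfix : ∀ i, σ (α i) = α i)
    (S : Set (MvPolynomial (Fin n) ℂ)) :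
    ∃ T : Finset (ℕ × ℕ), {t : ℕ | ∀ g ∈ S, eval ((act F)^[t] α) g = 0} =
      {t : ℕ | ∃ q ∈ T, ∃ m : ℕ, t = q.1 * m + q.2} := by
  classical
  obtain ⟨⟨hF1, hF2⟩, s, hs, hs'⟩ := mon_moved σ I F hF
  have hone : ∀ x : Fin n → ℂ, ¬ Pool.Agent.U100.MQ.Van {1} x := by
    intro x hx
    have h1 := hx 1 (Finset.mem_singleton_self _)
    rw [map_one] at h1
    exact one_ne_zero h1
  have hgood : Pool.Agent.U100.MQ.GoodAt σ F α := by
    refine ⟨s, 1, fun i => if i = 0 then I else {1}, fun G hG => (hs' G hG).1, ?_, hα, ?_, ?_, ?_,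
      ?_, ?_⟩
    · intro i _ G hG
      by_cases hi : i = 0
      · simp only [if_pos hi] at hG
        exact hI G hG
      · simp only [if_neg hi] at hG
        rw [Finset.mem_singleton] at hG
        refine ⟨1, one_pos, ?_⟩
        rw [hG]
        exact map_one _
    · intro i hi x hx
      obtain rfl : i = 0 := by omega
      exact hF2 x hx
    · intro i hi
      obtain rfl : i = 0 := by omega
      refine ⟨0, fun x hx hc => Or.inr (Or.inl (hs x hx hc))⟩
    · intro x _ hx
      exact absurd hx (hone _)
    · exact hone α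
    · intro G hG x hx h
      exact absurd h ((hs' G hG).2 x hx)
  obtain ⟨T, hT⟩ := Pool.Agent.U100.MQ.master (m := 1) (n := fun _ => n) σ (fun _ => F)
    (fun _ i => hF1 i) (fun _ => α) (fun _ i => hfix i) (fun _ => hgood)
    ((fun g => rename (Sigma.mk (0 : Fin 1)) g) '' S)
  refine ⟨T, ?_⟩
  rw [← hT]
  ext t
  rw [Set.mem_ofPred_eq, Set.mem_ofPred_eq, Set.forall_mem_image]
  have h1 : ∀ g : MvPolynomial (Fin n) ℂ,
      eval (fun q : (Σ _ : Fin 1, Fin n) =>
        (Pool.Agent.U100.MQ.affMap fun _ => F)^[t] (fun _ => α) q.1 q.2)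
        (rename (Sigma.mk (0 : Fin 1)) g) = eval ((act F)^[t] α) g := by
    intro g
    rw [eval_rename, Pool.Agent.U100.MQ.aff_iter]
    rfl
  constructor
  · intro h2 g hg
    rw [h1]
    exact h2 g hg
  · intro h2 g hg
    rw [← h1]
    exact h2 hg

end Pool.Agent.Results.MP_295d38_ag.MovedRamificationMonoid
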